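import Pool.Agent.K4H58.XK.Spec

open Finset

namespace Pool.Agent.K4H58.XK

namespace JJ

/-- from abstract ground sets to `Fin n` -/
theorem transfer {k n : ℕ} (hk : 1 ≤ k) {ι α β : Type} [Fintype ι] [Fintype α] [Fintype β]
    (hα : Fintype.card α ≤ n) (hβ : Fintype.card β ≤ n)
    (X : ι → Finset α) (Y : ι → Finset β) (hX : ∀ i, (X i).card = k) (hY : ∀ i, (Y i).card = k)
    (hXY : ∀ i j, i ≠ j → (Disjoint (X i) (X j) ↔ ¬ Disjoint (Y i) (Y j))) :
    ∃ F : Finset (Finset (Fin n) × Finset (Fin n)), (∀ p ∈ F, p.1.card = k ∧ p.2.card = k) ∧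
      (∀ p ∈ F, ∀ q ∈ F, p ≠ q → (Disjoint p.1 q.1 ↔ ¬ Disjoint p.2 q.2)) ∧
      F.card = Fintype.card ι := by
  classical
  obtain ⟨f⟩ : Nonempty (α ↪ Fin n) := Function.Embedding.nonempty_of_card_le (by simpa using hα)
  obtain ⟨g⟩ : Nonempty (β ↪ Fin n) := Function.Embedding.nonempty_of_card_le (by simpa using hβ)
  have hinj : Function.Injective (fun i : ι => ((X i).map f, (Y i).map g)) := by
    intro i j h
    by_contra hij
    simp only [Prod.mk.injEq, Finset.map_inj] at h
    have h1 := hXY i j hij
    rw [h.1, h.2] at h1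
    have hx : (X j).Nonempty := by rw [← card_pos, hX]; omega
    have hy : (Y j).Nonempty := by rw [← card_pos, hY]; omega
    rw [disjoint_self_iff_empty, disjoint_self_iff_empty] at h1
    exact hx.ne_empty (h1.2 hy.ne_empty)
  refine ⟨univ.image (fun i : ι => ((X i).map f, (Y i).map g)), ?_, ?_, ?_⟩
  · intro p hp
    obtain ⟨i, -, rfl⟩ := mem_image.1 hp
    simp [hX, hY]
  · intro p hp q hq hpq
    obtain ⟨i, -, rfl⟩ := mem_image.1 hp
    obtain ⟨j, -, rfl⟩ := mem_image.1 hq
    have hij : i ≠ j := by rintro rfl; exact hpq rfl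
    simp only [Finset.disjoint_map]
    exact hXY i j hij
  · rw [card_image_of_injective _ hinj, card_univ]

/-- the `k`-sets which contain `z` -/
def P (k : ℕ) (z : Fin (2 * k)) : Finset (Finset (Fin (2 * k))) :=
  (powersetCard k univ).filter (fun T => z ∈ T)

theorem card_P {k : ℕ} (z : Fin (2 * k)) : 2 * (P k z).card = (2 * k).choose k := by
  classical
  have h1 : (powersetCard k (univ : Finset (Fin (2 * k)))).card = (2 * k).choose k := by
    rw [card_powersetCard, card_univ, Fintype.card_fin]
  have h2 := card_filter_add_card_filter_not (s := powersetCard k (univ : Finset (Fin (2 * k))))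
    (p := fun T => z ∈ T)
  have h3 : ((powersetCard k (univ : Finset (Fin (2 * k)))).filter (fun T => ¬ z ∈ T)).card =
      ((powersetCard k (univ : Finset (Fin (2 * k)))).filter (fun T => z ∈ T)).card := by
    refine card_bij' (fun T _ => Tᶜ) (fun T _ => Tᶜ) ?_ ?_ ?_ ?_
    · intro T hT
      rw [mem_filter, mem_powersetCard_univ] at hT ⊢
      rw [card_compl, Fintype.card_fin, mem_compl]
      exact ⟨by omega, hT.2⟩
    · intro T hT
      rw [mem_filter, mem_powersetCard_univ] at hT ⊢
      rw [card_compl, Fintype.card_fin, mem_compl, not_not]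
      exact ⟨by omega, hT.2⟩
    · intro T _
      exact compl_compl T
    · intro T _
      exact compl_compl T
  unfold P
  omega

/-- two different sets of the same size: the first is not in the second -/
theorem not_disj_compl {k : ℕ} {A B : Finset (Fin (2 * k))} (hA : A.card = k) (hB : B.card = k)
    (h : A ≠ B) : ¬ Disjoint A Bᶜ := by
  intro hd
  apply h
  apply eq_of_subset_of_card_le
  · intro x hx
    by_contra hxB
    exact Finset.disjoint_left.1 hd hx (mem_compl.2 hxB)
  · omega

theorem not_disj_of_mem {k : ℕ} {A B : Finset (Fin (2 * k))} {z : Fin (2 * k)} (hA : z ∈ A)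
    (hB : z ∈ B) : ¬ Disjoint A B := fun hd => Finset.disjoint_left.1 hd hA hB

theorem not_disj_compl_compl {k : ℕ} {A B : Finset (Fin (2 * k))} {z : Fin (2 * k)} (hA : A.card = k)
    (hB : B.card = k) (hzA : z ∈ A) (hzB : z ∈ B) : ¬ Disjoint Aᶜ Bᶜ := by
  intro hd
  have h1 : (Aᶜ ∪ Bᶜ).card = Aᶜ.card + Bᶜ.card := card_union_of_disjoint hd
  have h2 : (Aᶜ ∪ Bᶜ).card ≤ (univ.erase z).card := by
    apply card_le_card
    intro x hx
    rw [mem_erase]
    refine ⟨?_, mem_univ _⟩
    rintro rfl
    rcases mem_union.1 hx with h | h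
    · exact (mem_compl.1 h) hzA
    · exact (mem_compl.1 h) hzB
  rw [card_erase_of_mem (mem_univ _), card_univ, Fintype.card_fin] at h2
  rw [card_compl, card_compl, Fintype.card_fin, hA, hB] at h1
  have := z.2
  omega

end JJ

open JJ in
theorem lower_bound {k : ℕ} (hk : 1 ≤ k) : ∃ n0 : ℕ, ∀ n : ℕ, n0 ≤ n →
    ∃ F : Finset (Finset (Fin n) × Finset (Fin n)), (∀ p ∈ F, p.1.card = k ∧ p.2.card = k) ∧
      (∀ p ∈ F, ∀ q ∈ F, p ≠ q → (Disjoint p.1 q.1 ↔ ¬ Disjoint p.2 q.2)) ∧
      F.card = n / k + (k * (2 * k).choose k / 2 - k) := by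
  classical
  obtain ⟨z⟩ : Nonempty (Fin (2 * k)) := ⟨⟨0, by omega⟩⟩
  obtain ⟨Y0, hzY, -, hY0⟩ := exists_subsuperset_card_eq (s := {z})
    (t := (univ : Finset (Fin (2 * k)))) (n := k) (subset_univ _) (by simpa using hk)
    (by rw [card_univ, Fintype.card_fin]; omega)
  have hz0 : z ∈ Y0 := hzY (mem_singleton_self z)
  set Q : Finset (Finset (Fin (2 * k))) := (P k z).erase Y0 with hQ
  have hmem : Y0 ∈ P k z := by
    unfold P
    rw [mem_filter, mem_powersetCard_univ]
    exact ⟨hY0, hz0⟩
  have hQc : Q.card + 1 = (P k z).card := card_erase_add_one hmem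
  have hPc := card_P z
  obtain ⟨t, ht⟩ : ∃ t, t = Q.card := ⟨_, rfl⟩
  have hQ1 : ∀ T ∈ Q, T.card = k ∧ z ∈ T ∧ T ≠ Y0 := by
    intro T hT
    rw [hQ, mem_erase] at hT
    have h1 := hT.2
    unfold P at h1
    rw [mem_filter, mem_powersetCard_univ] at h1
    exact ⟨h1.1, h1.2, hT.1⟩
  refine ⟨2 * k + k * (k * t), fun n hn => ?_⟩
  have hnk : k * t ≤ n / k := by
    rw [Nat.le_div_iff_mul_le (by omega)]
    calc k * t * k = k * (k * t) := by ring
      _ ≤ n := by omega
  obtain ⟨r, hr⟩ : ∃ r, r = n / k - k * t := ⟨_, rfl⟩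
  let ι : Type := ({T // T ∈ Q} × Bool × Fin k) ⊕ Fin r
  let α : Type := ({T // T ∈ Q} × Fin k × Fin k) ⊕ (Fin r × Fin k)
  have hα : Fintype.card α ≤ n := by
    have e : Fintype.card α = t * (k * k) + r * k := by
      simp only [α, Fintype.card_sum, Fintype.card_prod, Fintype.card_fin, Fintype.card_coe, ht]
    rw [e, hr, Nat.sub_mul]
    have h1 : n / k * k ≤ n := Nat.div_mul_le_self n k
    have h2 : k * t * k ≤ n / k * k := Nat.mul_le_mul_right k hnk
    have h3 : t * (k * k) = k * t * k := by ring
    omega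
  have hι : Fintype.card ι = n / k + (k * (2 * k).choose k / 2 - k) := by
    have e : Fintype.card ι = t * (2 * k) + r := by
      simp only [ι, Fintype.card_sum, Fintype.card_prod, Fintype.card_fin, Fintype.card_coe,
        Fintype.card_bool, ht]
    have e2 : k * (2 * k).choose k / 2 = k * t + k := by
      rw [← hPc, ← hQc, ← ht]
      have : k * (2 * (t + 1)) = 2 * (k * t + k) := by ring
      rw [this, Nat.mul_div_cancel_left _ (by norm_num)]
    have e3 : t * (2 * k) = k * t + k * t := by ring
    rw [e, e2, e3]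
    omega
  let X : ι → Finset α := fun i => match i with
    | Sum.inl (T, false, r') => univ.image (fun c : Fin k => Sum.inl (T, r', c))
    | Sum.inl (T, true, c') => univ.image (fun r : Fin k => Sum.inl (T, r, c'))
    | Sum.inr s => univ.image (fun c : Fin k => Sum.inr (s, c))
  let Y : ι → Finset (Fin (2 * k)) := fun i => match i with
    | Sum.inl (T, false, _) => T.1
    | Sum.inl (T, true, _) => T.1ᶜ
    | Sum.inr _ => Y0
  have hX : ∀ i, (X i).card = k := by
    rintro (⟨T, b, r'⟩ | s)
    · cases b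
      · show (univ.image (fun c : Fin k => (Sum.inl (T, r', c) : α))).card = k
        rw [card_image_of_injective, card_univ, Fintype.card_fin]
        intro a b h
        simpa using h
      · show (univ.image (fun c : Fin k => (Sum.inl (T, c, r') : α))).card = k
        rw [card_image_of_injective, card_univ, Fintype.card_fin]
        intro a b h
        simpa using h
    · show (univ.image (fun c : Fin k => (Sum.inr (s, c) : α))).card = k
      rw [card_image_of_injective, card_univ, Fintype.card_fin]
      intro a b h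
      simpa using h
  have hY : ∀ i, (Y i).card = k := by
    rintro (⟨T, b, r'⟩ | s)
    · cases b
      · exact (hQ1 T.1 T.2).1
      · show (T.1ᶜ).card = k
        rw [card_compl, Fintype.card_fin, (hQ1 T.1 T.2).1]
        omega
    · exact hY0
  have hYne : ∀ i, (Y i).Nonempty := fun i => by rw [← card_pos, hY]; omega
  have hYself : ∀ i, ¬ Disjoint (Y i) (Y i) := fun i hd => by
    rw [disjoint_self_iff_empty] at hd
    exact (hYne i).ne_empty hd
  have hXY : ∀ i j, i ≠ j → (Disjoint (X i) (X j) ↔ ¬ Disjoint (Y i) (Y j)) := by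
    rintro (⟨T, b, a⟩ | s) (⟨T', b', a'⟩ | s') hij
    · obtain ⟨c1, c2, c3⟩ := hQ1 T.1 T.2
      obtain ⟨d1, d2, d3⟩ := hQ1 T'.1 T'.2
      by_cases hT : T = T'
      · subst hT
        cases b <;> cases b'
        · have haa : a ≠ a' := by rintro rfl; exact hij rfl
          refine ⟨fun _ => hYself (Sum.inl (T, false, a)), fun _ => ?_⟩
          rw [Finset.disjoint_left]
          intro x hx hx'
          obtain ⟨c, -, rfl⟩ := mem_image.1 hx
          obtain ⟨c', -, h⟩ := mem_image.1 hx'
          have h2 : (T, a', c') = (T, a, c) := Sum.inl.inj h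
          exact haa (congrArg (fun p => p.2.1) h2).symm
        · refine ⟨fun hd => ?_, fun hd => ?_⟩
          · exfalso
            have m1 : (Sum.inl (T, a, a') : α) ∈ X (Sum.inl (T, false, a)) :=
              mem_image.2 ⟨a', mem_univ _, rfl⟩
            have m2 : (Sum.inl (T, a, a') : α) ∈ X (Sum.inl (T, true, a')) :=
              mem_image.2 ⟨a, mem_univ _, rfl⟩
            exact Finset.disjoint_left.1 hd m1 m2
          · exact absurd (show Disjoint T.1 T.1ᶜ from disjoint_compl_right) hd
        · refine ⟨fun hd => ?_, fun hd => ?_⟩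
          · exfalso
            have m1 : (Sum.inl (T, a', a) : α) ∈ X (Sum.inl (T, true, a)) :=
              mem_image.2 ⟨a', mem_univ _, rfl⟩
            have m2 : (Sum.inl (T, a', a) : α) ∈ X (Sum.inl (T, false, a')) :=
              mem_image.2 ⟨a, mem_univ _, rfl⟩
            exact Finset.disjoint_left.1 hd m1 m2
          · exact absurd (show Disjoint T.1ᶜ T.1 from disjoint_compl_left) hd
        · have haa : a ≠ a' := by rintro rfl; exact hij rfl
          refine ⟨fun _ => hYself (Sum.inl (T, true, a)), fun _ => ?_⟩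
          rw [Finset.disjoint_left]
          intro x hx hx'
          obtain ⟨c, -, rfl⟩ := mem_image.1 hx
          obtain ⟨c', -, h⟩ := mem_image.1 hx'
          have h2 : (T, c', a') = (T, c, a) := Sum.inl.inj h
          exact haa (congrArg (fun p => p.2.2) h2).symm
      · have hTT : T.1 ≠ T'.1 := fun h => hT (Subtype.ext h)
        have hd : Disjoint (X (Sum.inl (T, b, a))) (X (Sum.inl (T', b', a'))) := by
          rw [Finset.disjoint_left]
          intro x hx hx'
          cases b <;> cases b' <;>
          · obtain ⟨c, -, rfl⟩ := mem_image.1 hx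
            obtain ⟨c', -, h⟩ := mem_image.1 hx'
            exact hT (congrArg (fun p => p.1) (Sum.inl.inj h)).symm
        refine ⟨fun _ => ?_, fun _ => hd⟩
        cases b <;> cases b'
        · exact not_disj_of_mem c2 d2
        · exact not_disj_compl c1 d1 hTT
        · intro h
          exact not_disj_compl d1 c1 hTT.symm h.symm
        · exact not_disj_compl_compl c1 d1 c2 d2
    · obtain ⟨c1, c2, c3⟩ := hQ1 T.1 T.2
      have hd : Disjoint (X (Sum.inl (T, b, a))) (X (Sum.inr s')) := by
        rw [Finset.disjoint_left]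
        intro x hx hx'
        cases b <;>
        · obtain ⟨c, -, rfl⟩ := mem_image.1 hx
          obtain ⟨c', -, h⟩ := mem_image.1 hx'
          cases h
      refine ⟨fun _ => ?_, fun _ => hd⟩
      cases b
      · exact not_disj_of_mem c2 hz0
      · intro h
        exact not_disj_compl hY0 c1 c3.symm h.symm
    · obtain ⟨c1, c2, c3⟩ := hQ1 T'.1 T'.2
      have hd : Disjoint (X (Sum.inr s)) (X (Sum.inl (T', b', a'))) := by
        rw [Finset.disjoint_left]
        intro x hx hx'
        cases b' <;>
        · obtain ⟨c, -, rfl⟩ := mem_image.1 hx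
          obtain ⟨c', -, h⟩ := mem_image.1 hx'
          cases h
      refine ⟨fun _ => ?_, fun _ => hd⟩
      cases b'
      · exact not_disj_of_mem hz0 c2
      · exact not_disj_compl hY0 c1 c3.symm
    · have hss : s ≠ s' := by rintro rfl; exact hij rfl
      refine ⟨fun _ => hYself (Sum.inr s), fun _ => ?_⟩
      rw [Finset.disjoint_left]
      intro x hx hx'
      obtain ⟨c, -, rfl⟩ := mem_image.1 hx
      obtain ⟨c', -, h⟩ := mem_image.1 hx'
      exact hss (congrArg (fun p => p.1) (Sum.inr.inj h)).symm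
  obtain ⟨F, h1, h2, h3⟩ := transfer hk hα (by rw [Fintype.card_fin]; omega) X Y hX hY hXY
  exact ⟨F, h1, h2, h3.trans hι⟩

end Pool.Agent.K4H58.XK
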